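import Pool.Agent.helper47.CL.SpecC

/-!
# cl:YA: covers for an odd number of vertices
-/

set_option autoImplicit false

namespace Pool.Agent.helper41.CL

open Finset

theorem YA (h1 : AZ_stmt) (h2 : SP_stmt) (h3 : SD_stmt) : YA_stmt := by
  intro α _ V E c hG hc hE hV
  rcases Nat.lt_or_ge c #E with h | h
  · have hsum := h3 α V E hG
    have hlt : ∑ x ∈ V, 1 < ∑ x ∈ V, #(inc E x) := by
      rw [hsum, Finset.sum_const, smul_eq_mul, mul_one]
      omega
    obtain ⟨p, hpV, hp⟩ := Finset.exists_lt_of_sum_lt hlt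
    obtain ⟨d, rfl⟩ : ∃ d, c = d + 1 := ⟨c - 1, by omega⟩
    have hsp := h2 α V E p d hpV
    have hsplit : #(E.filter fun e => p ∈ e) + #(E.filter fun e => p ∉ e) = #E :=
      Finset.card_filter_add_card_filter_not (fun e : Finset α => p ∈ e)
    have hp' : 1 < #(E.filter fun e => p ∈ e) := hp
    have hG' : Gr (V.erase p) (E.filter fun e => p ∉ e) := by
      intro e he
      obtain ⟨he1, he2⟩ := Finset.mem_filter.1 he
      refine ⟨?_, (hG e he1).2⟩
      intro x hx
      exact Finset.mem_erase.2 ⟨fun hxp => he2 (hxp ▸ hx), (hG e he1).1 hx⟩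
    have hV' : #(V.erase p) = #V - 1 := Finset.card_erase_of_mem hpV
    have haz := h1 α (V.erase p) (E.filter fun e => p ∉ e) d hG' (by omega) (by omega)
    rw [hsp, Nat.add_sub_cancel]
    omega
  · have haz := h1 α V E c hG h (by omega)
    have h4 : 2 ^ (c - 1) ≤ 2 ^ c := Nat.pow_le_pow_right (by norm_num) (by omega)
    omega

end Pool.Agent.helper41.CL
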